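import Pool.Agent.NNc.Fin
import Pool.Agent.NNr.B2
import Pool.Agent.NNr.B5
import Pool.Agent.NNr.B7
import Pool.Agent.NNr.B6
import Pool.Agent.NNr.B3
import Pool.Agent.NNr.B8
import Pool.Agent.NNr.B9
import Pool.Agent.NNr.B1
import Pool.Agent.NNr.B0
import Pool.Agent.NNr.B11
import Pool.Agent.NNr.B10
import Pool.Agent.NNr.B4

/-!
# All records for `n = 11` are dead
-/

namespace Pool.Agent.NNe

open Pool.Agent.NNc

private theorem fn {α : Type} {P : α → Prop} : ∀ x ∈ ([] : List α), P x :=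
  fun _ h => absurd h List.not_mem_nil

private theorem fc {α : Type} {P : α → Prop} {a : α} {l : List α} (h : P a) (t : ∀ x ∈ l, P x) :
    ∀ x ∈ a :: l, P x := List.forall_mem_cons.2 ⟨h, t⟩

theorem dead11U : ∀ u ∈ UL11, ∃ ok, OkU u ok ∧ IsEmpty (LTil (shU 11 u ok)) :=
  (fc Pool.Agent.NNr.U11_0_2_m1.res
    (fc Pool.Agent.NNr.U11_1_1_m1.res
    (fc Pool.Agent.NNr.U11_1_2_m2.res
    (fc Pool.Agent.NNr.U11_2_m2_1.res
    (fc Pool.Agent.NNr.U11_2_m1_0.res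
    (fc Pool.Agent.NNr.U11_2_0_m1.res
    (fc Pool.Agent.NNr.U11_2_1_m2.res
    (fc Pool.Agent.NNr.U11_2_2_m1.res
    fn))))))))

theorem dead11P : ∀ p ∈ PL11, ∃ ok, OkP p ok ∧ IsEmpty (LTil (shP 11 p ok)) :=
  (fc Pool.Agent.NNr.R11_1_1_2.res
    (fc Pool.Agent.NNr.R11_1_1_4.res
    (fc Pool.Agent.NNr.R11_1_2_2.res
    (fc Pool.Agent.NNr.R11_1_2_3.res
    (fc Pool.Agent.NNr.R11_1_2_4.res
    (fc Pool.Agent.NNr.R11_1_2_5.res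
    (fc Pool.Agent.NNr.R11_1_2_6.res
    (fc Pool.Agent.NNr.R11_1_2_7.res
    (fc Pool.Agent.NNr.R11_1_2_8.res
    (fc Pool.Agent.NNr.R11_1_2_9.res
    (fc Pool.Agent.NNr.R11_1_2_10.res
    (fc Pool.Agent.NNr.R11_1_2_11.res
    (fc Pool.Agent.NNr.R11_1_2_12.res
    (fc Pool.Agent.NNr.R11_1_2_13.res
    (fc Pool.Agent.NNr.R11_1_2_14.res
    (fc Pool.Agent.NNr.R11_1_2_15.res
    (fc Pool.Agent.NNr.R11_1_2_16.res
    (fc Pool.Agent.NNr.R11_1_2_17.res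
    (fc Pool.Agent.NNr.R11_1_3_4.res
    (fc Pool.Agent.NNr.R11_1_3_6.res
    (fc Pool.Agent.NNr.R11_1_3_8.res
    (fc Pool.Agent.NNr.R11_1_4_5.res
    (fc Pool.Agent.NNr.R11_1_4_6.res
    (fc Pool.Agent.NNr.R11_1_4_8.res
    (fc Pool.Agent.NNr.R11_1_4_9.res
    (fc Pool.Agent.NNr.R11_1_4_10.res
    (fc Pool.Agent.NNr.R11_1_5_6.res
    (fc Pool.Agent.NNr.R11_1_5_8.res
    (fc Pool.Agent.NNr.R11_1_5_10.res
    (fc Pool.Agent.NNr.R11_1_5_12.res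
    (fc Pool.Agent.NNr.R11_1_6_7.res
    (fc Pool.Agent.NNr.R11_1_6_10.res
    (fc Pool.Agent.NNr.R11_1_6_12.res
    (fc Pool.Agent.NNr.R11_1_6_14.res
    (fc Pool.Agent.NNr.R11_1_7_8.res
    (fc Pool.Agent.NNr.R11_1_7_12.res
    (fc Pool.Agent.NNr.R11_1_7_14.res
    (fc Pool.Agent.NNr.R11_1_7_16.res
    (fc Pool.Agent.NNr.R11_1_8_9.res
    (fc Pool.Agent.NNr.R11_1_8_14.res
    (fc Pool.Agent.NNr.R11_1_8_16.res
    (fc Pool.Agent.NNr.R11_1_8_18.res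
    (fc Pool.Agent.NNr.R11_1_9_16.res
    (fc Pool.Agent.NNr.R11_2_2_3.res
    (fc Pool.Agent.NNr.R11_2_3_4.res
    (fc Pool.Agent.NNr.R11_2_3_5.res
    (fc Pool.Agent.NNr.R11_2_3_6.res
    (fc Pool.Agent.NNr.R11_2_3_7.res
    (fc Pool.Agent.NNr.R11_2_3_8.res
    (fc Pool.Agent.NNr.R11_2_3_10.res
    (fc Pool.Agent.NNr.R11_2_4_5.res
    (fc Pool.Agent.NNr.R11_2_4_7.res
    (fc Pool.Agent.NNr.R11_2_4_9.res
    (fc Pool.Agent.NNr.R11_2_4_11.res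
    (fc Pool.Agent.NNr.R11_2_4_13.res
    (fc Pool.Agent.NNr.R11_2_4_15.res
    (fc Pool.Agent.NNr.R11_2_5_6.res
    (fc Pool.Agent.NNr.R11_2_5_7.res
    (fc Pool.Agent.NNr.R11_2_5_10.res
    (fc Pool.Agent.NNr.R11_2_5_14.res
    (fc Pool.Agent.NNr.R11_2_6_7.res
    (fc Pool.Agent.NNr.R11_2_7_8.res
    (fc Pool.Agent.NNr.R11_2_7_9.res
    (fc Pool.Agent.NNr.R11_2_7_10.res
    (fc Pool.Agent.NNr.R11_2_7_14.res
    (fc Pool.Agent.NNr.R11_2_7_18.res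
    (fc Pool.Agent.NNr.R11_2_8_9.res
    (fc Pool.Agent.NNr.R11_2_9_10.res
    (fc Pool.Agent.NNr.R11_2_9_14.res
    (fc Pool.Agent.NNr.R11_2_10_11.res
    (fc Pool.Agent.NNr.R11_2_11_12.res
    (fc Pool.Agent.NNr.R11_2_12_13.res
    (fc Pool.Agent.NNr.R11_2_13_14.res
    (fc Pool.Agent.NNr.R11_2_14_15.res
    (fc Pool.Agent.NNr.R11_2_15_16.res
    (fc Pool.Agent.NNr.R11_2_16_17.res
    (fc Pool.Agent.NNr.R11_3_4_5.res
    (fc Pool.Agent.NNr.R11_3_4_6.res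
    (fc Pool.Agent.NNr.R11_3_4_7.res
    (fc Pool.Agent.NNr.R11_3_4_8.res
    (fc Pool.Agent.NNr.R11_3_4_14.res
    (fc Pool.Agent.NNr.R11_3_5_6.res
    (fc Pool.Agent.NNr.R11_3_5_8.res
    (fc Pool.Agent.NNr.R11_3_5_10.res
    (fc Pool.Agent.NNr.R11_3_5_16.res
    (fc Pool.Agent.NNr.R11_3_7_8.res
    (fc Pool.Agent.NNr.R11_3_7_10.res
    (fc Pool.Agent.NNr.R11_3_7_14.res
    (fc Pool.Agent.NNr.R11_3_7_20.res
    (fc Pool.Agent.NNr.R11_3_8_10.res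
    (fc Pool.Agent.NNr.R11_3_8_16.res
    (fc Pool.Agent.NNr.R11_3_10_14.res
    (fc Pool.Agent.NNr.R11_3_11_16.res
    (fc Pool.Agent.NNr.R11_4_5_6.res
    (fc Pool.Agent.NNr.R11_4_5_7.res
    (fc Pool.Agent.NNr.R11_4_5_8.res
    (fc Pool.Agent.NNr.R11_4_5_9.res
    (fc Pool.Agent.NNr.R11_4_5_10.res
    (fc Pool.Agent.NNr.R11_4_5_18.res
    (fc Pool.Agent.NNr.R11_4_6_7.res
    (fc Pool.Agent.NNr.R11_4_7_9.res
    (fc Pool.Agent.NNr.R11_4_7_11.res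
    (fc Pool.Agent.NNr.R11_4_7_14.res
    (fc Pool.Agent.NNr.R11_4_9_10.res
    (fc Pool.Agent.NNr.R11_4_9_11.res
    (fc Pool.Agent.NNr.R11_4_11_13.res
    (fc Pool.Agent.NNr.R11_4_11_14.res
    (fc Pool.Agent.NNr.R11_4_13_15.res
    (fc Pool.Agent.NNr.R11_4_15_17.res
    (fc Pool.Agent.NNr.R11_4_17_19.res
    (fc Pool.Agent.NNr.R11_5_6_8.res
    (fc Pool.Agent.NNr.R11_5_6_10.res
    (fc Pool.Agent.NNr.R11_5_6_12.res
    (fc Pool.Agent.NNr.R11_5_6_22.res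
    (fc Pool.Agent.NNr.R11_5_7_8.res
    (fc Pool.Agent.NNr.R11_5_7_14.res
    (fc Pool.Agent.NNr.R11_5_8_9.res
    (fc Pool.Agent.NNr.R11_5_8_16.res
    (fc Pool.Agent.NNr.R11_5_11_12.res
    (fc Pool.Agent.NNr.R11_5_12_14.res
    (fc Pool.Agent.NNr.R11_6_7_10.res
    (fc Pool.Agent.NNr.R11_6_7_14.res
    (fc Pool.Agent.NNr.R11_6_8_11.res
    (fc Pool.Agent.NNr.R11_6_10_11.res
    (fc Pool.Agent.NNr.R11_6_10_13.res
    (fc Pool.Agent.NNr.R11_6_11_14.res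
    (fc Pool.Agent.NNr.R11_6_13_14.res
    (fc Pool.Agent.NNr.R11_6_13_16.res
    (fc Pool.Agent.NNr.R11_6_14_17.res
    (fc Pool.Agent.NNr.R11_7_8_10.res
    fn))))))))))))))))))))))))))))))))))))))))))))))))))))))))))))))))))))))))))))))))))))))))))))))))))))))))))))))))))))))))))))))))))

theorem dead11 : Dead 11 UL11 PL11 := ⟨dead11U, dead11P⟩

end Pool.Agent.NNe
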