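import Pool.Agent.NNc.Fin
import Pool.Agent.NNr.B7
import Pool.Agent.NNr.B8
import Pool.Agent.NNr.B1
import Pool.Agent.NNr.B6
import Pool.Agent.NNr.B3
import Pool.Agent.NNr.B10
import Pool.Agent.NNr.B9
import Pool.Agent.NNr.B11
import Pool.Agent.NNr.B0
import Pool.Agent.NNr.B2
import Pool.Agent.NNr.B5
import Pool.Agent.NNr.B4

/-!
# All records for `n = 13` are dead
-/

namespace Pool.Agent.NNe

open Pool.Agent.NNc

private theorem fn {α : Type} {P : α → Prop} : ∀ x ∈ ([] : List α), P x :=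
  fun _ h => absurd h List.not_mem_nil

private theorem fc {α : Type} {P : α → Prop} {a : α} {l : List α} (h : P a) (t : ∀ x ∈ l, P x) :
    ∀ x ∈ a :: l, P x := List.forall_mem_cons.2 ⟨h, t⟩

theorem dead13U : ∀ u ∈ UL13, ∃ ok, OkU u ok ∧ IsEmpty (LTil (shU 13 u ok)) :=
  (fc Pool.Agent.NNr.U13_1_1_m1.res
    (fc Pool.Agent.NNr.U13_2_2_m1.res
    fn))

theorem dead13P : ∀ p ∈ PL13, ∃ ok, OkP p ok ∧ IsEmpty (LTil (shP 13 p ok)) :=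
  (fc Pool.Agent.NNr.R13_1_1_2.res
    (fc Pool.Agent.NNr.R13_1_1_4.res
    (fc Pool.Agent.NNr.R13_1_2_2.res
    (fc Pool.Agent.NNr.R13_1_2_3.res
    (fc Pool.Agent.NNr.R13_1_2_4.res
    (fc Pool.Agent.NNr.R13_1_2_5.res
    (fc Pool.Agent.NNr.R13_1_2_6.res
    (fc Pool.Agent.NNr.R13_1_3_4.res
    (fc Pool.Agent.NNr.R13_1_3_8.res
    (fc Pool.Agent.NNr.R13_1_4_5.res
    (fc Pool.Agent.NNr.R13_1_4_6.res
    (fc Pool.Agent.NNr.R13_1_4_9.res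
    (fc Pool.Agent.NNr.R13_1_4_10.res
    (fc Pool.Agent.NNr.R13_1_5_6.res
    (fc Pool.Agent.NNr.R13_1_5_12.res
    (fc Pool.Agent.NNr.R13_1_6_7.res
    (fc Pool.Agent.NNr.R13_1_6_14.res
    (fc Pool.Agent.NNr.R13_1_7_8.res
    (fc Pool.Agent.NNr.R13_1_7_16.res
    (fc Pool.Agent.NNr.R13_1_8_9.res
    (fc Pool.Agent.NNr.R13_1_8_18.res
    (fc Pool.Agent.NNr.R13_1_9_10.res
    (fc Pool.Agent.NNr.R13_1_9_20.res
    (fc Pool.Agent.NNr.R13_1_10_11.res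
    (fc Pool.Agent.NNr.R13_1_10_22.res
    (fc Pool.Agent.NNr.R13_2_3_4.res
    (fc Pool.Agent.NNr.R13_2_3_5.res
    (fc Pool.Agent.NNr.R13_2_3_7.res
    (fc Pool.Agent.NNr.R13_2_3_8.res
    (fc Pool.Agent.NNr.R13_2_3_10.res
    (fc Pool.Agent.NNr.R13_2_4_5.res
    (fc Pool.Agent.NNr.R13_2_5_6.res
    (fc Pool.Agent.NNr.R13_2_5_7.res
    (fc Pool.Agent.NNr.R13_2_5_9.res
    (fc Pool.Agent.NNr.R13_2_5_14.res
    (fc Pool.Agent.NNr.R13_2_6_7.res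
    (fc Pool.Agent.NNr.R13_2_7_9.res
    (fc Pool.Agent.NNr.R13_2_7_18.res
    (fc Pool.Agent.NNr.R13_2_9_11.res
    (fc Pool.Agent.NNr.R13_2_9_22.res
    (fc Pool.Agent.NNr.R13_3_4_7.res
    (fc Pool.Agent.NNr.R13_3_4_10.res
    (fc Pool.Agent.NNr.R13_3_4_11.res
    (fc Pool.Agent.NNr.R13_3_4_14.res
    (fc Pool.Agent.NNr.R13_3_5_8.res
    (fc Pool.Agent.NNr.R13_3_5_16.res
    (fc Pool.Agent.NNr.R13_3_7_10.res
    (fc Pool.Agent.NNr.R13_3_7_20.res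
    (fc Pool.Agent.NNr.R13_3_8_11.res
    (fc Pool.Agent.NNr.R13_3_8_22.res
    (fc Pool.Agent.NNr.R13_4_5_9.res
    (fc Pool.Agent.NNr.R13_4_5_13.res
    (fc Pool.Agent.NNr.R13_4_5_18.res
    (fc Pool.Agent.NNr.R13_4_7_11.res
    (fc Pool.Agent.NNr.R13_4_7_22.res
    (fc Pool.Agent.NNr.R13_4_9_13.res
    (fc Pool.Agent.NNr.R13_5_6_22.res
    (fc Pool.Agent.NNr.R13_6_7_26.res
    fn))))))))))))))))))))))))))))))))))))))))))))))))))))))))))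

theorem dead13 : Dead 13 UL13 PL13 := ⟨dead13U, dead13P⟩

end Pool.Agent.NNe
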