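import Pool.Agent.NNc.Fin
import Pool.Agent.NNr.B9
import Pool.Agent.NNr.B4
import Pool.Agent.NNr.B10
import Pool.Agent.NNr.B11
import Pool.Agent.NNr.B0
import Pool.Agent.NNr.B2
import Pool.Agent.NNr.B3
import Pool.Agent.NNr.B7
import Pool.Agent.NNr.B8
import Pool.Agent.NNr.B5
import Pool.Agent.NNr.B1
import Pool.Agent.NNr.B6

/-!
# All records for `n = 15` are dead
-/

namespace Pool.Agent.NNe

open Pool.Agent.NNc

private theorem fn {α : Type} {P : α → Prop} : ∀ x ∈ ([] : List α), P x :=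
  fun _ h => absurd h List.not_mem_nil

private theorem fc {α : Type} {P : α → Prop} {a : α} {l : List α} (h : P a) (t : ∀ x ∈ l, P x) :
    ∀ x ∈ a :: l, P x := List.forall_mem_cons.2 ⟨h, t⟩

theorem dead15U : ∀ u ∈ UL15, ∃ ok, OkU u ok ∧ IsEmpty (LTil (shU 15 u ok)) :=
  (fc Pool.Agent.NNr.U15_2_2_m1.res
    fn)

theorem dead15P : ∀ p ∈ PL15, ∃ ok, OkP p ok ∧ IsEmpty (LTil (shP 15 p ok)) :=
  (fc Pool.Agent.NNr.R15_1_1_4.res
    (fc Pool.Agent.NNr.R15_1_2_3.res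
    (fc Pool.Agent.NNr.R15_1_2_4.res
    (fc Pool.Agent.NNr.R15_1_2_5.res
    (fc Pool.Agent.NNr.R15_1_2_6.res
    (fc Pool.Agent.NNr.R15_1_3_4.res
    (fc Pool.Agent.NNr.R15_1_3_8.res
    (fc Pool.Agent.NNr.R15_1_4_5.res
    (fc Pool.Agent.NNr.R15_1_4_6.res
    (fc Pool.Agent.NNr.R15_1_4_10.res
    (fc Pool.Agent.NNr.R15_1_5_12.res
    (fc Pool.Agent.NNr.R15_1_6_14.res
    (fc Pool.Agent.NNr.R15_1_7_16.res
    (fc Pool.Agent.NNr.R15_1_8_18.res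
    (fc Pool.Agent.NNr.R15_1_9_20.res
    (fc Pool.Agent.NNr.R15_1_10_22.res
    (fc Pool.Agent.NNr.R15_1_11_24.res
    (fc Pool.Agent.NNr.R15_1_12_26.res
    (fc Pool.Agent.NNr.R15_2_3_10.res
    (fc Pool.Agent.NNr.R15_2_5_14.res
    (fc Pool.Agent.NNr.R15_2_7_18.res
    (fc Pool.Agent.NNr.R15_2_9_22.res
    (fc Pool.Agent.NNr.R15_2_11_26.res
    (fc Pool.Agent.NNr.R15_3_4_14.res
    (fc Pool.Agent.NNr.R15_3_5_16.res
    (fc Pool.Agent.NNr.R15_3_7_20.res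
    (fc Pool.Agent.NNr.R15_3_8_22.res
    (fc Pool.Agent.NNr.R15_3_10_26.res
    (fc Pool.Agent.NNr.R15_3_11_28.res
    (fc Pool.Agent.NNr.R15_4_5_18.res
    (fc Pool.Agent.NNr.R15_4_7_22.res
    (fc Pool.Agent.NNr.R15_4_9_26.res
    (fc Pool.Agent.NNr.R15_5_6_22.res
    (fc Pool.Agent.NNr.R15_5_7_24.res
    (fc Pool.Agent.NNr.R15_5_8_26.res
    (fc Pool.Agent.NNr.R15_6_7_26.res
    fn))))))))))))))))))))))))))))))))))))

theorem dead15 : Dead 15 UL15 PL15 := ⟨dead15U, dead15P⟩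

end Pool.Agent.NNe
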